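import Pool.Agent.H643R3.TreeCrit

/-!
# The critical biased walk on the tree of half-plane self-avoiding walks is recurrent
-/

namespace Pool.Agent.Results.MP_f8169a_pr.HalfPlaneCriticalRecurrence

open Pool.Agent.H643R3.Tree

/-- On the tree `T_ℍ` of self-avoiding walks in the upper half-plane there is a critical bias `c`
(separating recurrence from transience of the biased walk), and the walk at the critical bias is
recurrent. -/
theorem result : (∃ c, IsCritical c) ∧ ∀ c, IsCritical c → Recurrent c :=
  ⟨exists_critical, fun _ hc => recurrent_critical hc⟩

end Pool.Agent.Results.MP_f8169a_pr.HalfPlaneCriticalRecurrence
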